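import Pool.Agent.Helper96.WR.B2
import Pool.Agent.Helper53.FM.Defs
import Pool.Agent.Helper82.WR.SigmaExists

/-!
# Project FM, piece B1: choice of the shifts

The cross sums have thresholds depending on the sum, and the short windows of the world are
controlled in addition.
-/

set_option autoImplicit false
set_option linter.unusedVariables false

namespace Pool.Agent.Helper85.FM

open Finset
open Pool.Agent.Helper3.Thin (dig und off Lab GoodSet)
open Pool.Agent.Helper53.WR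
open Pool.Agent.Helper48.FB (win crossF Cs WinLe Fs Dk LR zR dens)
open Pool.Agent.Helper96.WR (JJ BB BB_inl BB_inr mass_inr)

/-- The bad sets for the short windows. -/
def BS {q : ℕ} (Γ : Finset (ZMod q × ZMod q)) (T : Finset ℕ) (S : ℕ)
    (τ : ZMod q × ZMod q → ZMod q × ZMod q) (j : ℕ × ℕ × ℕ)
    (p : (ZMod q × ZMod q) × (ZMod q × ZMod q)) : Finset ℕ :=
  if p ∈ (Γ ×ˢ Γ).filter (fun p => j.1 ≤ (p.2 + τ p.1).2.val + (p.2 + τ p.1).1.val * q ∧
      (p.2 + τ p.1).2.val + (p.2 + τ p.1).1.val * q < j.1 + j.2.1) then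
    (range S).filter (fun s => ∃ t ∈ T, S + s + t = j.2.2) else ∅

open Classical in
/-- All the bad sets. -/
noncomputable def BD {q : ℕ} (Γ : Finset (ZMod q × ZMod q)) (T O : Finset ℕ) (S : ℕ)
    (τ : ZMod q × ZMod q → ZMod q × ZMod q) :
    (JJ ⊕ ℕ) ⊕ (ℕ × ℕ × ℕ) → ((ZMod q × ZMod q) × (ZMod q × ZMod q)) → Finset ℕ :=
  Sum.elim (Sum.elim (BB Γ T O S τ) (fun s p => if p ∈ Γ ×ˢ Γ then {s} else ∅)) (BS Γ T S τ)

lemma und_lt {q : ℕ} [Fact q.Prime] (u z : ZMod q × ZMod q) : und u z < q ^ 4 := by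
  have hq : 0 < q := (Fact.out : q.Prime).pos
  have : NeZero q := ⟨hq.ne'⟩
  unfold und
  have h1 := Pool.Agent.Helper3.Thin.two_digits_lt (ZMod.val_lt u.2) (ZMod.val_lt u.1)
  have h2 := Pool.Agent.Helper3.Thin.two_digits_lt (ZMod.val_lt z.2) (ZMod.val_lt z.1)
  have h3 : (z.2.val + z.1.val * q + 1) * q ^ 2 ≤ q ^ 2 * q ^ 2 := Nat.mul_le_mul_right _ h2
  have h4 : q ^ 4 = q ^ 2 * q ^ 2 := by ring
  rw [h4]
  nlinarith

lemma off_lt {q : ℕ} (hq : 2 ≤ q) (ε : Lab) : off q ε < 513 * q ^ 4 := by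
  unfold off
  have h1 : (ε.1 : ℕ) ≤ 1 := by omega
  have h2 : (ε.2.1 : ℕ) ≤ 1 := by omega
  have h3 : (ε.2.2.1 : ℕ) ≤ 1 := by omega
  have h4 : (ε.2.2.2 : ℕ) + 1 ≤ 512 := by omega
  have g1 : (ε.1 : ℕ) * q ≤ 1 * q := Nat.mul_le_mul_right _ h1
  have g2 : (ε.2.1 : ℕ) * q ^ 2 ≤ 1 * q ^ 2 := Nat.mul_le_mul_right _ h2
  have g3 : (ε.2.2.1 : ℕ) * q ^ 3 ≤ 1 * q ^ 3 := Nat.mul_le_mul_right _ h3
  have g4 : ((ε.2.2.2 : ℕ) + 1) * q ^ 4 ≤ 512 * q ^ 4 := Nat.mul_le_mul_right _ h4
  have g5 : 2 * q ^ 3 ≤ q ^ 4 := by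
    rw [pow_succ q 3, mul_comm]
    exact Nat.mul_le_mul_left _ hq
  have g6 : 2 * q ^ 2 ≤ q ^ 3 := by
    rw [pow_succ q 2, mul_comm]
    exact Nat.mul_le_mul_left _ hq
  have g7 : 2 * q ≤ q ^ 2 := by
    rw [sq]
    exact Nat.mul_le_mul_right _ hq
  omega

/-- The number of admissible `s` for a given top value. -/
lemma top_card_le (T : Finset ℕ) (S c : ℕ) :
    ((range S).filter (fun s => ∃ t ∈ T, S + s + t = c)).card ≤ (win T (c + 1 - 2 * S) S).card := by
  apply Finset.card_le_card_of_injOn (fun s => c - S - s)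
  · intro s hs
    rw [Finset.mem_coe, mem_filter, mem_range] at hs
    obtain ⟨hsS, t, ht, h1⟩ := hs
    have ht' : c - S - s = t := by omega
    rw [Finset.mem_coe]
    unfold win
    rw [mem_filter]
    simp only [ht']
    exact ⟨ht, by omega, by omega⟩
  · intro s hs s' hs' hss
    rw [Finset.mem_coe, mem_filter, mem_range] at hs hs'
    obtain ⟨hsS, t, ht, h1⟩ := hs
    obtain ⟨hsS', t', ht', h1'⟩ := hs'
    simp only at hss
    omega

open Classical in
lemma fibre_le3 {q : ℕ} (hq : 0 < q) (T : Finset ℕ) (S W a n o : ℕ)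
    (hW : ∀ c : ℕ, a + q ^ 4 * c + o = n → (win T (c + 1 - 2 * S) S).card ≤ W) :
    ((range S).filter (fun s => ∃ t ∈ T, a + q ^ 4 * (S + s + t) + o = n)).card ≤
      if (a + o) % q ^ 4 = n % q ^ 4 then W else 0 := by
  have hq4 : 0 < q ^ 4 := by positivity
  by_cases hne : ((range S).filter (fun s => ∃ t ∈ T, a + q ^ 4 * (S + s + t) + o = n)).Nonempty
  · obtain ⟨s0, hs0⟩ := hne
    rw [mem_filter, mem_range] at hs0
    obtain ⟨hs0S, t0, ht0, h0⟩ := hs0
    have hmod : (a + o) % q ^ 4 = n % q ^ 4 := by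
      rw [← h0]
      have : a + q ^ 4 * (S + s0 + t0) + o = (a + o) + q ^ 4 * (S + s0 + t0) := by ring
      rw [this, Nat.add_mul_mod_self_left]
    rw [if_pos hmod]
    refine le_trans ?_ (le_trans (top_card_le T S (S + s0 + t0)) (hW _ h0))
    apply card_le_card
    intro s hs
    rw [mem_filter] at hs ⊢
    obtain ⟨hsS, t, ht, h1⟩ := hs
    refine ⟨hsS, t, ht, ?_⟩
    have : q ^ 4 * (S + s + t) = q ^ 4 * (S + s0 + t0) := by omega
    exact Nat.eq_of_mul_eq_mul_left hq4 this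
  · rw [Finset.not_nonempty_iff_eq_empty] at hne
    rw [hne]
    simp

open Classical in
lemma mass_inl3 {q : ℕ} [Fact q.Prime] (Γ : Finset (ZMod q × ZMod q))
    (T O : Finset ℕ) (S x H : ℕ) (V : ℕ → ℕ) (τ : ZMod q × ZMod q → ZMod q × ZMod q)
    (hOS : ∀ o ∈ O, o < q ^ 4 * S)
    (hV : ∀ z z' : ℕ, z ≤ z' → (win T z' S).card ≤ V z)
    (hQ : ∀ ν : ℕ, (((Γ ×ˢ Γ) ×ˢ O).filter (fun y =>
        (und y.1.1 (y.1.2 + τ y.1.1) + y.2) % q ^ 4 = ν % q ^ 4)).card ≤ x * H)
    (ne : ℕ × Lab) :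
    ∑ p, (BB Γ T O S τ (Sum.inl ne) p).card ≤ x * H * V (ne.1 / q ^ 4 - 514 - 3 * S) := by
  have hq : 0 < q := (Fact.out : q.Prime).pos
  have hq2 : 2 ≤ q := (Fact.out : q.Prime).two_le
  have hq4 : 0 < q ^ 4 := by positivity
  set W := V (ne.1 / q ^ 4 - 514 - 3 * S) with hWdef
  by_cases hn : off q ne.2 ≤ ne.1
  · obtain ⟨ν, hν⟩ := Nat.exists_eq_add_of_le hn
    have h1 : ∀ p, (BB Γ T O S τ (Sum.inl ne) p).card ≤
        if p ∈ Γ ×ˢ Γ then ∑ o ∈ O, (if (und p.1 (p.2 + τ p.1) + o) % q ^ 4 = ν % q ^ 4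
          then W else 0) else 0 := by
      intro p
      rw [BB_inl]
      by_cases hp : p ∈ Γ ×ˢ Γ
      · rw [if_pos hp, if_pos hp]
        calc _ ≤ (O.biUnion (fun o => (range S).filter (fun s => ∃ t ∈ T,
              und p.1 (p.2 + τ p.1) + q ^ 4 * (S + s + t) + o = ν))).card := by
              apply card_le_card
              intro s hs
              rw [mem_filter] at hs
              obtain ⟨hs, o, ho, t, ht, h⟩ := hs
              rw [mem_biUnion]
              refine ⟨o, ho, ?_⟩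
              rw [mem_filter]
              exact ⟨hs, t, ht, by omega⟩
          _ ≤ ∑ o ∈ O, ((range S).filter (fun s => ∃ t ∈ T,
              und p.1 (p.2 + τ p.1) + q ^ 4 * (S + s + t) + o = ν)).card := card_biUnion_le
          _ ≤ _ := by
              refine Finset.sum_le_sum (fun o ho => fibre_le3 hq T S W _ ν o ?_)
              intro c hc
              refine hV _ _ ?_
              have g1 := und_lt p.1 (p.2 + τ p.1)
              have g2 := off_lt hq2 ne.2
              have g3 := hOS o ho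
              have g4 : ne.1 < (514 + c + S) * q ^ 4 := by
                have e1 : (514 + c + S) * q ^ 4 = 513 * q ^ 4 + q ^ 4 + q ^ 4 * c + q ^ 4 * S := by
                  ring
                rw [e1]
                omega
              have g5 : ne.1 / q ^ 4 < 514 + c + S := (Nat.div_lt_iff_lt_mul hq4).mpr g4
              omega
      · rw [if_neg hp, if_neg hp, card_empty]
    calc ∑ p, (BB Γ T O S τ (Sum.inl ne) p).card
        ≤ ∑ p, (if p ∈ Γ ×ˢ Γ then ∑ o ∈ O,
          (if (und p.1 (p.2 + τ p.1) + o) % q ^ 4 = ν % q ^ 4 then W else 0) else 0) :=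
          Finset.sum_le_sum (fun p _ => h1 p)
      _ = ∑ p ∈ Γ ×ˢ Γ, ∑ o ∈ O,
          (if (und p.1 (p.2 + τ p.1) + o) % q ^ 4 = ν % q ^ 4 then W else 0) := by
          rw [Finset.sum_ite_mem, Finset.univ_inter]
      _ = ∑ y ∈ (Γ ×ˢ Γ) ×ˢ O,
          (if (und y.1.1 (y.1.2 + τ y.1.1) + y.2) % q ^ 4 = ν % q ^ 4 then W else 0) := by
          rw [Finset.sum_product (Γ ×ˢ Γ) O]
      _ = (((Γ ×ˢ Γ) ×ˢ O).filter (fun y =>
          (und y.1.1 (y.1.2 + τ y.1.1) + y.2) % q ^ 4 = ν % q ^ 4)).card * W := by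
          rw [← Finset.sum_filter, Finset.sum_const, smul_eq_mul]
      _ ≤ x * H * W := by
          gcongr
          exact hQ ν
  · have h1 : ∀ p, (BB Γ T O S τ (Sum.inl ne) p).card = 0 := by
      intro p
      rw [card_eq_zero]
      rw [BB_inl]
      split_ifs with hp
      · apply Finset.filter_eq_empty_iff.2
        intro s _
        push Not
        intro o _ t _
        omega
      · rfl
    rw [Finset.sum_eq_zero (fun p _ => h1 p)]
    exact Nat.zero_le _

lemma mass_BS {q : ℕ} [Fact q.Prime] (Γ : Finset (ZMod q × ZMod q)) (T : Finset ℕ) (S x : ℕ)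
    (V : ℕ → ℕ) (τ : ZMod q × ZMod q → ZMod q × ZMod q)
    (hV : ∀ z z' : ℕ, z ≤ z' → (win T z' S).card ≤ V z)
    (hs : ∀ c m : ℕ, 1 ≤ m → ((Γ ×ˢ Γ).filter (fun p =>
        c ≤ (p.2 + τ p.1).2.val + (p.2 + τ p.1).1.val * q ∧
          (p.2 + τ p.1).2.val + (p.2 + τ p.1).1.val * q < c + m)).card ≤ x * m)
    (j : ℕ × ℕ × ℕ) (hj : 1 ≤ j.2.1) :
    ∑ p, (BS Γ T S τ j p).card ≤ x * j.2.1 * V (j.2.2 + 1 - 2 * S) := by
  have h1 : ∀ p, (BS Γ T S τ j p).card ≤
      if p ∈ (Γ ×ˢ Γ).filter (fun p => j.1 ≤ (p.2 + τ p.1).2.val + (p.2 + τ p.1).1.val * q ∧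
        (p.2 + τ p.1).2.val + (p.2 + τ p.1).1.val * q < j.1 + j.2.1) then
        V (j.2.2 + 1 - 2 * S) else 0 := by
    intro p
    unfold BS
    split_ifs
    · exact le_trans (top_card_le T S j.2.2) (hV _ _ le_rfl)
    · simp
  refine le_trans (Finset.sum_le_sum (fun p _ => h1 p)) ?_
  rw [Finset.sum_ite_mem, Finset.univ_inter, Finset.sum_const, smul_eq_mul]
  exact Nat.mul_le_mul_right _ (hs j.1 j.2.1 hj)

/-- The threshold for the event of a short window. -/
def yW (x S L : ℕ) (V : ℕ → ℕ) (j : ℕ × ℕ × ℕ) : ℕ :=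
  3 * (x * j.2.1 * V (j.2.2 + 1 - 2 * S)) / S + L + 1

lemma exp_window {x S L : ℕ} (hS : 0 < S) (V : ℕ → ℕ) (j : ℕ × ℕ × ℕ) :
    Real.exp (Real.exp 1 * ((x : ℝ) * j.2.1 * V (j.2.2 + 1 - 2 * S) / S)) /
      Real.exp 1 ^ yW x S L V j ≤ Real.exp (-(L : ℝ)) := by
  have hSr : (0 : ℝ) < S := by exact_mod_cast hS
  rw [← Real.exp_nat_mul, ← Real.exp_sub, Real.exp_le_exp]
  set M := x * j.2.1 * V (j.2.2 + 1 - 2 * S) with hM
  have e1 : (x : ℝ) * j.2.1 * V (j.2.2 + 1 - 2 * S) = (M : ℝ) := by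
    rw [hM]
    push_cast
    ring
  rw [e1]
  have h1 : Real.exp 1 * ((M : ℝ) / S) ≤ 3 * ((M : ℝ) / S) :=
    mul_le_mul_of_nonneg_right (by have := Real.exp_one_lt_d9; linarith) (by positivity)
  have h2 : 3 * ((M : ℝ) / S) ≤ ((3 * M / S : ℕ) : ℝ) + 1 := by
    have h3 : 3 * M < S * (3 * M / S + 1) := by
      have h4 := Nat.div_add_mod (3 * M) S
      have h5 := Nat.mod_lt (3 * M) hS
      have h6 : S * (3 * M / S + 1) = S * (3 * M / S) + S := by ring
      omega
    have h7 : (3 : ℝ) * M < S * (((3 * M / S : ℕ) : ℝ) + 1) := by exact_mod_cast h3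
    have h8 : 3 * ((M : ℝ) / S) = 3 * M / S := by ring
    rw [h8, div_le_iff₀ hSr]
    linarith
  have h3 : ((yW x S L V j : ℕ) : ℝ) = ((3 * M / S : ℕ) : ℝ) + L + 1 := by
    unfold yW
    rw [← hM]
    push_cast
    ring
  rw [h3]
  linarith

/-- FM-B1 (choice of `σ`). -/
theorem sigma_select3 {q : ℕ} [Fact q.Prime] (Γ : Finset (ZMod q × ZMod q))
    (hΓ : Γ.card ≤ 3 * q) (T O : Finset ℕ) (S : ℕ) (hS : 0 < S) (x H N yS L Y : ℕ)
    (t0 V : ℕ → ℕ) (Mod : Finset ℕ)
    (hMod : ∀ m ∈ Mod, 0 < m) (hTY : ∀ t ∈ T, t < Y) (hOS : ∀ o ∈ O, o < q ^ 4 * S)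
    (τ : ZMod q × ZMod q → ZMod q × ZMod q)
    (hV : ∀ z z' : ℕ, z ≤ z' → (win T z' S).card ≤ V z)
    (hQ : ∀ ν : ℕ, (((Γ ×ˢ Γ) ×ˢ O).filter (fun y =>
        (und y.1.1 (y.1.2 + τ y.1.1) + y.2) % q ^ 4 = ν % q ^ 4)).card ≤ x * H)
    (hM : ∀ m ∈ Mod, ∀ r : ℕ, ((((Γ ×ˢ Γ) ×ˢ ((range S) ×ˢ T)).filter (fun y =>
        (und y.1.1 (y.1.2 + τ y.1.1) + q ^ 4 * (S + y.2.1 + y.2.2)) % m = r % m)).card : ℝ)
          ≤ x * (T.card * ((q : ℝ) ^ 2 * S / m + 1)))
    (hs : ∀ c m : ℕ, 1 ≤ m → ((Γ ×ˢ Γ).filter (fun p =>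
        c ≤ (p.2 + τ p.1).2.val + (p.2 + τ p.1).1.val * q ∧
          (p.2 + τ p.1).2.val + (p.2 + τ p.1).1.val * q < c + m)).card ≤ x * m)
    (AX : ℕ → ℝ) (hAX : ∀ n < N, 1 ≤ AX n)
    (hX : ∀ n < N, (N : ℝ) * 4096 * (Real.exp (AX n *
      ((x : ℝ) * H * V (n / q ^ 4 - 514 - 3 * S) / S)) / AX n ^ t0 n) < 1 / 8)
    (AM : ℕ → ℝ) (hAM : ∀ m ∈ Mod, 1 ≤ AM m) (y : ℕ → ℕ)
    (hY : ∑ m ∈ Mod, (m : ℝ) * (Real.exp (AM m *
      ((x : ℝ) * (T.card * ((q : ℝ) ^ 2 / m + 1 / S)))) / AM m ^ y m) < 1 / 2)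
    (AS : ℝ) (hAS : 1 ≤ AS)
    (hSS : (S : ℝ) * (Real.exp (AS * (9 * (q : ℝ) ^ 2 / S)) / AS ^ yS) < 1 / 4)
    (hL : (q : ℝ) ^ 4 * (2 * S + Y) * Real.exp (-(L : ℝ)) < 1 / 8) :
    ∃ σ : (ZMod q × ZMod q) × (ZMod q × ZMod q) → ℕ, (∀ p, σ p < S) ∧
      (∀ n < N, ∀ ε : Lab, ((Γ ×ˢ Γ).filter (fun p => ∃ o ∈ O, ∃ t ∈ T,
        elt S τ σ p ε t + o = n)).card < t0 n) ∧
      (∀ m ∈ Mod, ∀ r : ℕ, ((Γ ×ˢ Γ).filter (fun p => ∃ t ∈ T,
        (und p.1 (p.2 + τ p.1) + q ^ 4 * (S + σ p + t)) % m = r % m)).card < y m) ∧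
      (∀ s, ((Γ ×ˢ Γ).filter (fun p => σ p = s)).card ≤ yS) ∧
      ∀ c m z : ℕ, 1 ≤ m → ((Γ ×ˢ Γ).filter (fun p =>
        (c ≤ (p.2 + τ p.1).2.val + (p.2 + τ p.1).1.val * q ∧
          (p.2 + τ p.1).2.val + (p.2 + τ p.1).1.val * q < c + m) ∧
            ∃ t ∈ T, S + σ p + t = z)).card * S ≤ 3 * (x * m * V (z + 1 - 2 * S)) + L * S := by
  classical
  have hSr : (0 : ℝ) < S := by exact_mod_cast hS
  have hq : 0 < q := (Fact.out : q.Prime).pos
  have : NeZero q := ⟨hq.ne'⟩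
  obtain ⟨σ, hσ, hcount⟩ := Pool.Agent.Helper82.WR.sigma_exists
    (ι := (ZMod q × ZMod q) × (ZMod q × ZMod q)) S hS
    (J := (JJ ⊕ ℕ) ⊕ (ℕ × ℕ × ℕ))
    (((((range N) ×ˢ (univ : Finset Lab)).disjSum (Mod.sigma (fun m => range m))).disjSum
      (range S)).disjSum ((range (q ^ 2)) ×ˢ ((Icc 1 (q ^ 2)) ×ˢ (range (2 * S + Y)))))
    (BD Γ T O S τ)
    (by
      intro j hj i
      rcases j with ((ne | mr) | s) | c
      · show BB Γ T O S τ (Sum.inl ne) i ⊆ range S
        rw [BB_inl]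
        split_ifs
        · exact filter_subset _ _
        · exact empty_subset _
      · show BB Γ T O S τ (Sum.inr mr) i ⊆ range S
        rw [BB_inr]
        split_ifs
        · exact filter_subset _ _
        · exact empty_subset _
      · rw [Finset.inl_mem_disjSum, Finset.inr_mem_disjSum] at hj
        show (if i ∈ Γ ×ˢ Γ then ({s} : Finset ℕ) else ∅) ⊆ range S
        split_ifs
        · exact Finset.singleton_subset_iff.2 hj
        · exact empty_subset _
      · show BS Γ T S τ c i ⊆ range S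
        unfold BS
        split_ifs
        · exact filter_subset _ _
        · exact empty_subset _)
    (Sum.elim (Sum.elim (Sum.elim
      (fun ne => (x : ℝ) * H * V (ne.1 / q ^ 4 - 514 - 3 * S) / S)
      (fun mr => (x : ℝ) * (T.card * ((q : ℝ) ^ 2 / mr.1 + 1 / S))))
      (fun _ => 9 * (q : ℝ) ^ 2 / S))
      (fun j => (x : ℝ) * j.2.1 * V (j.2.2 + 1 - 2 * S) / S))
    (Sum.elim (Sum.elim (Sum.elim (fun ne => AX ne.1) (fun mr => AM mr.1)) (fun _ => AS))
      (fun _ => Real.exp 1))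
    (Sum.elim (Sum.elim (Sum.elim (fun ne => t0 ne.1) (fun mr => y mr.1)) (fun _ => yS))
      (yW x S L V))
    (by
      intro j hj
      rcases j with ((ne | mr) | s) | c
      · rw [Finset.inl_mem_disjSum, Finset.inl_mem_disjSum, Finset.inl_mem_disjSum,
          mem_product, mem_range] at hj
        simpa using hAX _ hj.1
      · rw [Finset.inl_mem_disjSum, Finset.inl_mem_disjSum, Finset.inr_mem_disjSum,
          mem_sigma] at hj
        simpa using hAM _ hj.1
      · simpa using hAS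
      · simp only [Sum.elim_inr]
        exact Real.one_le_exp zero_le_one)
    (by
      intro j hj
      rcases j with ((ne | mr) | s) | c
      · simp only [Sum.elim_inl]
        rw [div_mul_cancel₀ _ hSr.ne']
        exact_mod_cast mass_inl3 Γ T O S x H V τ hOS hV hQ ne
      · rw [Finset.inl_mem_disjSum, Finset.inl_mem_disjSum, Finset.inr_mem_disjSum,
          mem_sigma] at hj
        simp only [Sum.elim_inr, Sum.elim_inl]
        have h1 := mass_inr Γ T O S τ mr
        have h2 := hM mr.1 hj.1 mr.2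
        have h3 : (x : ℝ) * (T.card * ((q : ℝ) ^ 2 / mr.1 + 1 / S)) * S =
            x * (T.card * ((q : ℝ) ^ 2 * S / mr.1 + 1)) := by
          field_simp
        rw [h3]
        refine le_trans ?_ h2
        exact_mod_cast h1
      · simp only [Sum.elim_inr, Sum.elim_inl]
        rw [div_mul_cancel₀ _ hSr.ne']
        have h1 : ∀ p : (ZMod q × ZMod q) × (ZMod q × ZMod q),
            ((BD Γ T O S τ (Sum.inl (Sum.inr s)) p).card : ℝ) =
              if p ∈ Γ ×ˢ Γ then 1 else 0 := by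
          intro p
          show ((if p ∈ Γ ×ˢ Γ then ({s} : Finset ℕ) else ∅).card : ℝ) = _
          split_ifs <;> simp
        rw [Finset.sum_congr rfl (fun p _ => h1 p), Finset.sum_ite_mem, Finset.univ_inter,
          Finset.sum_const, card_product, nsmul_eq_mul, mul_one]
        have h2 : Γ.card * Γ.card ≤ 9 * q ^ 2 := by
          calc Γ.card * Γ.card ≤ (3 * q) * (3 * q) := Nat.mul_le_mul hΓ hΓ
            _ = 9 * q ^ 2 := by ring
        exact_mod_cast h2
      · simp only [Sum.elim_inr]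
        rw [Finset.inr_mem_disjSum, mem_product, mem_product, mem_Icc] at hj
        rw [div_mul_cancel₀ _ hSr.ne']
        exact_mod_cast mass_BS Γ T S x V τ hV hs c hj.2.1.1)
    (by
      rw [Finset.sum_disjSum, Finset.sum_disjSum, Finset.sum_disjSum, Finset.sum_sigma]
      simp only [Sum.elim_inl, Sum.elim_inr, Finset.sum_const, nsmul_eq_mul, card_range]
      have h4096 : (univ : Finset Lab).card = 4096 := by
        simp [Lab]
      -- the cross sums
      have e1 : ∑ ne ∈ (range N) ×ˢ (univ : Finset Lab),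
          Real.exp (AX ne.1 * ((x : ℝ) * H * V (ne.1 / q ^ 4 - 514 - 3 * S) / S)) /
            AX ne.1 ^ t0 ne.1 ≤ 1 / 8 := by
        rw [Finset.sum_product (range N) (univ : Finset Lab)]
        simp only [Finset.sum_const, h4096, nsmul_eq_mul]
        rcases Nat.eq_zero_or_pos N with hN | hN
        · subst hN
          simp
        · have hNr : (0 : ℝ) < N := by exact_mod_cast hN
          calc ∑ n ∈ range N, ((4096 : ℕ) : ℝ) *
                (Real.exp (AX n * ((x : ℝ) * H * V (n / q ^ 4 - 514 - 3 * S) / S)) /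
                  AX n ^ t0 n)
              ≤ ∑ n ∈ range N, 1 / 8 / (N : ℝ) := by
                refine Finset.sum_le_sum (fun n hn => ?_)
                rw [mem_range] at hn
                have h1 := hX n hn
                rw [le_div_iff₀ hNr]
                push_cast
                linarith
            _ = 1 / 8 := by
                rw [Finset.sum_const, card_range, nsmul_eq_mul]
                field_simp
      -- the windows
      have e2 : ∑ j ∈ (range (q ^ 2)) ×ˢ ((Icc 1 (q ^ 2)) ×ˢ (range (2 * S + Y))),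
          Real.exp (Real.exp 1 * ((x : ℝ) * j.2.1 * V (j.2.2 + 1 - 2 * S) / S)) /
            Real.exp 1 ^ yW x S L V j < 1 / 8 := by
        refine lt_of_le_of_lt (Finset.sum_le_sum (fun j _ => exp_window hS V j)) ?_
        rw [Finset.sum_const, card_product, card_product, card_range, card_range, Nat.card_Icc,
          nsmul_eq_mul]
        refine lt_of_le_of_lt (le_of_eq ?_) hL
        have : q ^ 2 + 1 - 1 = q ^ 2 := by omega
        rw [this]
        push_cast
        ring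
      linarith)
  refine ⟨σ, hσ, ?_, ?_, ?_, ?_⟩
  · intro n hn ε
    have h := hcount (Sum.inl (Sum.inl (Sum.inl (n, ε)))) (by
      rw [Finset.inl_mem_disjSum, Finset.inl_mem_disjSum, Finset.inl_mem_disjSum, mem_product,
        mem_range]
      exact ⟨hn, mem_univ _⟩)
    simp only [Sum.elim_inl] at h
    refine lt_of_le_of_lt (card_le_card ?_) h
    intro p hp
    rw [mem_filter] at hp
    obtain ⟨hp, o, ho, t, ht, he⟩ := hp
    rw [mem_filter]
    refine ⟨mem_univ _, ?_⟩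
    show σ p ∈ BB Γ T O S τ (Sum.inl (n, ε)) p
    rw [BB_inl]
    rw [if_pos hp, mem_filter, mem_range]
    exact ⟨hσ p, o, ho, t, ht, he⟩
  · intro m hm r
    have h := hcount (Sum.inl (Sum.inl (Sum.inr ⟨m, r % m⟩))) (by
      rw [Finset.inl_mem_disjSum, Finset.inl_mem_disjSum, Finset.inr_mem_disjSum, mem_sigma,
        mem_range]
      exact ⟨hm, Nat.mod_lt _ (hMod m hm)⟩)
    simp only [Sum.elim_inr, Sum.elim_inl] at h
    refine lt_of_le_of_lt (card_le_card ?_) h
    intro p hp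
    rw [mem_filter] at hp
    obtain ⟨hp, t, ht, he⟩ := hp
    rw [mem_filter]
    refine ⟨mem_univ _, ?_⟩
    show σ p ∈ BB Γ T O S τ (Sum.inr ⟨m, r % m⟩) p
    rw [BB_inr]
    rw [if_pos hp, mem_filter, mem_range]
    exact ⟨hσ p, t, ht, by simpa using he⟩
  · intro s
    by_cases hs : s < S
    · have h := hcount (Sum.inl (Sum.inr s)) (by
        rw [Finset.inl_mem_disjSum, Finset.inr_mem_disjSum, mem_range]
        exact hs)
      simp only [Sum.elim_inr, Sum.elim_inl] at h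
      refine le_of_lt (lt_of_le_of_lt (card_le_card ?_) h)
      intro p hp
      rw [mem_filter] at hp
      rw [mem_filter]
      refine ⟨mem_univ _, ?_⟩
      show σ p ∈ (if p ∈ Γ ×ˢ Γ then ({s} : Finset ℕ) else ∅)
      rw [if_pos hp.1, mem_singleton]
      exact hp.2
    · have h0 : (Γ ×ˢ Γ).filter (fun p => σ p = s) = ∅ := by
        apply Finset.filter_eq_empty_iff.2
        intro p _ hp
        exact hs (hp ▸ hσ p)
      rw [h0, card_empty]
      exact Nat.zero_le _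
  · -- the windows
    have hbase : ∀ c m z : ℕ, c < q ^ 2 → 1 ≤ m → m ≤ q ^ 2 → z < 2 * S + Y →
        ((Γ ×ˢ Γ).filter (fun p =>
        (c ≤ (p.2 + τ p.1).2.val + (p.2 + τ p.1).1.val * q ∧
          (p.2 + τ p.1).2.val + (p.2 + τ p.1).1.val * q < c + m) ∧
            ∃ t ∈ T, S + σ p + t = z)).card * S ≤ 3 * (x * m * V (z + 1 - 2 * S)) + L * S := by
      intro c m z hc hm hm' hz
      have h := hcount (Sum.inr (c, m, z)) (by
        rw [Finset.inr_mem_disjSum, mem_product, mem_product, mem_range, mem_Icc, mem_range]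
        exact ⟨hc, ⟨hm, hm'⟩, hz⟩)
      simp only [Sum.elim_inr] at h
      have h1 : ((Γ ×ˢ Γ).filter (fun p =>
          (c ≤ (p.2 + τ p.1).2.val + (p.2 + τ p.1).1.val * q ∧
            (p.2 + τ p.1).2.val + (p.2 + τ p.1).1.val * q < c + m) ∧
              ∃ t ∈ T, S + σ p + t = z)).card < yW x S L V (c, m, z) := by
        refine lt_of_le_of_lt (card_le_card ?_) h
        intro p hp
        rw [mem_filter] at hp
        obtain ⟨hp, hst, t, ht, he⟩ := hp
        rw [mem_filter]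
        refine ⟨mem_univ _, ?_⟩
        show σ p ∈ BS Γ T S τ (c, m, z) p
        unfold BS
        rw [if_pos (by rw [mem_filter]; exact ⟨hp, hst⟩), mem_filter, mem_range]
        exact ⟨hσ p, t, ht, he⟩
      unfold yW at h1
      simp only at h1
      have h2 := Nat.lt_succ_iff.mp h1
      calc _ ≤ (3 * (x * m * V (z + 1 - 2 * S)) / S + L) * S := Nat.mul_le_mul_right _ h2
        _ = 3 * (x * m * V (z + 1 - 2 * S)) / S * S + L * S := by ring
        _ ≤ _ := Nat.add_le_add_right (Nat.div_mul_le_self _ _) _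
    intro c m z hm
    have hlt : ∀ p : (ZMod q × ZMod q) × (ZMod q × ZMod q),
        (p.2 + τ p.1).2.val + (p.2 + τ p.1).1.val * q < q ^ 2 := fun p =>
      Pool.Agent.Helper3.Thin.two_digits_lt (ZMod.val_lt _) (ZMod.val_lt _)
    by_cases hz : z < 2 * S + Y
    · by_cases hc : c < q ^ 2
      · by_cases hm' : m ≤ q ^ 2
        · exact hbase c m z hc hm hm' hz
        · have hq2 : 1 ≤ q ^ 2 := Nat.one_le_pow _ _ hq
          refine le_trans (Nat.mul_le_mul_right _ (card_le_card ?_))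
            (le_trans (hbase c (q ^ 2) z hc hq2 le_rfl hz) ?_)
          · intro p hp
            rw [mem_filter] at hp ⊢
            have := hlt p
            exact ⟨hp.1, ⟨hp.2.1.1, by omega⟩, hp.2.2⟩
          · have : x * q ^ 2 ≤ x * m := Nat.mul_le_mul_left _ (by omega)
            have := Nat.mul_le_mul_right (V (z + 1 - 2 * S)) this
            omega
      · rw [Finset.filter_eq_empty_iff.2, card_empty]
        · omega
        · intro p _ hp
          have := hlt p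
          omega
    · rw [Finset.filter_eq_empty_iff.2, card_empty]
      · omega
      · rintro p _ ⟨_, t, ht, he⟩
        have := hTY t ht
        have := hσ p
        omega

end Pool.Agent.Helper85.FM
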